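import Pool.Agent.Helper15.Heis

/-!
Positivity of the `r`-th difference of the rank function of an `r`-differential poset.
-/

open Finset

namespace Pool.Agent.Results.MP_87b2fe_co.DifferencePositivity

universe u

/-- The graded poset `P` with least element (graded by `ℕ` in the sense of Mathlib: the grade is
strictly increasing, increases by one along covers, and the least element has grade `0`) is an
`r`-differential poset: each rank is finite and (D1), (D2) hold. Finite ranks make `P` locally
finite. -/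
structure IsDifferential (r : ℕ) (P : Type u) [PartialOrder P] [OrderBot P]
    [GradeMinOrder ℕ P] : Prop where
  /-- There are finitely many elements of each rank. -/
  finite_rank : ∀ n : ℕ, {x : P | grade ℕ x = n}.Finite
  /-- (D1): two distinct elements have as many common upper covers as common lower covers. -/
  d1 : ∀ x y : P, x ≠ y → {z : P | x ⋖ z ∧ y ⋖ z}.ncard = {z : P | z ⋖ x ∧ z ⋖ y}.ncard
  /-- (D2): an element covering `k` elements is covered by `k + r` elements. -/
  d2 : ∀ x : P, {z : P | x ⋖ z}.ncard = {z : P | z ⋖ x}.ncard + r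

/-- The rank function `p n`, the number of elements of rank `n`. -/
noncomputable def rankFn (P : Type u) [PartialOrder P] [OrderBot P] [GradeMinOrder ℕ P]
    (n : ℕ) : ℤ :=
  ({x : P | grade ℕ x = n}.ncard : ℤ)

/-- The first difference of a sequence. -/
def diff (q : ℕ → ℤ) : ℕ → ℤ
  | 0 => q 0
  | (n + 1) => q (n + 1) - q n

section Proof

open scoped Classical

variable {P : Type u} [PartialOrder P] [OrderBot P] [GradeMinOrder ℕ P] {r : ℕ}

omit [OrderBot P] in
lemma grade_cov {x y : P} (h : x ⋖ y) : grade ℕ y = grade ℕ x + 1 := by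
  have := CovBy.grade ℕ h
  rw [Nat.covBy_iff_add_one_eq] at this
  exact this.symm

/-- The elements of rank `n`. -/
noncomputable def rk (h : IsDifferential r P) (n : ℕ) : Finset P := (h.finite_rank n).toFinset

lemma mem_rk (h : IsDifferential r P) {n : ℕ} {x : P} : x ∈ rk h n ↔ grade ℕ x = n := by
  simp [rk]

/-- The upper covers. -/
noncomputable def up (h : IsDifferential r P) (x : P) : Finset P :=
  (rk h (grade ℕ x + 1)).filter (fun y => x ⋖ y)

/-- The lower covers. -/
noncomputable def dn (h : IsDifferential r P) (x : P) : Finset P :=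
  (rk h (grade ℕ x - 1)).filter (fun y => y ⋖ x)

lemma mem_up (h : IsDifferential r P) {x y : P} : y ∈ up h x ↔ x ⋖ y := by
  unfold up
  rw [mem_filter, mem_rk]
  exact ⟨fun h => h.2, fun h => ⟨grade_cov h, h⟩⟩

lemma mem_dn (h : IsDifferential r P) {x y : P} : y ∈ dn h x ↔ y ⋖ x := by
  unfold dn
  rw [mem_filter, mem_rk]
  exact ⟨fun h => h.2, fun h => ⟨by rw [grade_cov h]; rfl, h⟩⟩

lemma card_up (h : IsDifferential r P) (x : P) : (up h x).card = (dn h x).card + r := by
  have h1 := h.d2 x
  have h2 : {z : P | x ⋖ z} = (up h x : Set P) := by ext z; simp [mem_up]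
  have h3 : {z : P | z ⋖ x} = (dn h x : Set P) := by ext z; simp [mem_dn]
  rwa [h2, h3, Set.ncard_coe_finset, Set.ncard_coe_finset] at h1

lemma card_common (h : IsDifferential r P) {x y : P} (hxy : x ≠ y) :
    ((up h x).filter (fun z => y ⋖ z)).card = ((dn h x).filter (fun z => z ⋖ y)).card := by
  have h1 := h.d1 x y hxy
  have h2 : {z : P | x ⋖ z ∧ y ⋖ z} = ((up h x).filter (fun z => y ⋖ z) : Set P) := by
    ext z; simp [mem_up]
  have h3 : {z : P | z ⋖ x ∧ z ⋖ y} = ((dn h x).filter (fun z => z ⋖ y) : Set P) := by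
    ext z; simp [mem_dn]
  rwa [h2, h3, Set.ncard_coe_finset, Set.ncard_coe_finset] at h1

/-- The up operator, acting on functions. -/
noncomputable def opU (h : IsDifferential r P) : (P → ℚ) →ₗ[ℚ] (P → ℚ) where
  toFun f y := ∑ x ∈ dn h y, f x
  map_add' f g := by ext y; simp [Finset.sum_add_distrib]
  map_smul' c f := by ext y; simp [Finset.mul_sum]

/-- The down operator, acting on functions. -/
noncomputable def opD (h : IsDifferential r P) : (P → ℚ) →ₗ[ℚ] (P → ℚ) where
  toFun f x := ∑ y ∈ up h x, f y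
  map_add' f g := by ext y; simp [Finset.sum_add_distrib]
  map_smul' c f := by ext y; simp [Finset.mul_sum]

lemma opU_apply (h : IsDifferential r P) (f : P → ℚ) (y : P) :
    opU h f y = ∑ x ∈ dn h y, f x := rfl

lemma opD_apply (h : IsDifferential r P) (f : P → ℚ) (x : P) :
    opD h f x = ∑ y ∈ up h x, f y := rfl

lemma comm (h : IsDifferential r P) (f : P → ℚ) :
    opD h (opU h f) = opU h (opD h f) + (r : ℚ) • f := by
  ext x
  rw [Pi.add_apply, Pi.smul_apply, smul_eq_mul, opD_apply, opU_apply]
  simp only [opU_apply, opD_apply]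
  have hL : ∑ y ∈ up h x, ∑ x' ∈ dn h y, f x' =
      ∑ x' ∈ rk h (grade ℕ x), (((up h x).filter (fun y => x' ⋖ y)).card : ℚ) * f x' := by
    have h1 : ∀ y ∈ up h x, ∑ x' ∈ dn h y, f x' =
        ∑ x' ∈ rk h (grade ℕ x), if x' ⋖ y then f x' else 0 := by
      intro y hy
      rw [mem_up] at hy
      rw [← Finset.sum_filter]
      apply Finset.sum_congr _ (fun _ _ => rfl)
      ext x'
      rw [mem_dn, mem_filter, mem_rk]
      constructor
      · intro h2
        refine ⟨?_, h2⟩
        have := grade_cov h2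
        rw [grade_cov hy] at this
        omega
      · exact fun h2 => h2.2
    rw [Finset.sum_congr rfl h1, Finset.sum_comm]
    apply Finset.sum_congr rfl
    intro x' _
    rw [← Finset.sum_filter, Finset.sum_const, nsmul_eq_mul]
  have hR : ∑ y ∈ dn h x, ∑ x' ∈ up h y, f x' =
      ∑ x' ∈ rk h (grade ℕ x), (((dn h x).filter (fun y => y ⋖ x')).card : ℚ) * f x' := by
    have h1 : ∀ y ∈ dn h x, ∑ x' ∈ up h y, f x' =
        ∑ x' ∈ rk h (grade ℕ x), if y ⋖ x' then f x' else 0 := by
      intro y hy
      rw [mem_dn] at hy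
      rw [← Finset.sum_filter]
      apply Finset.sum_congr _ (fun _ _ => rfl)
      ext x'
      rw [mem_up, mem_filter, mem_rk]
      constructor
      · intro h2
        refine ⟨?_, h2⟩
        rw [grade_cov h2, grade_cov hy]
      · exact fun h2 => h2.2
    rw [Finset.sum_congr rfl h1, Finset.sum_comm]
    apply Finset.sum_congr rfl
    intro x' _
    rw [← Finset.sum_filter, Finset.sum_const, nsmul_eq_mul]
  rw [hL, hR]
  have hx : (r : ℚ) * f x = ∑ x' ∈ rk h (grade ℕ x), (if x' = x then (r : ℚ) * f x' else 0) := by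
    rw [Finset.sum_ite_eq' (rk h (grade ℕ x)) x (fun x' => (r : ℚ) * f x')]
    rw [if_pos ((mem_rk h).2 rfl)]
  rw [hx, ← Finset.sum_add_distrib]
  apply Finset.sum_congr rfl
  intro x' _
  by_cases hxx : x' = x
  · subst hxx
    rw [if_pos rfl]
    have e1 : (up h x').filter (fun y => x' ⋖ y) = up h x' := by
      apply Finset.filter_true_of_mem
      intro y hy
      exact (mem_up h).1 hy
    have e2 : (dn h x').filter (fun y => y ⋖ x') = dn h x' := by
      apply Finset.filter_true_of_mem
      intro y hy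
      exact (mem_dn h).1 hy
    rw [e1, e2, card_up]
    push_cast
    ring
  · rw [if_neg hxx, card_common h (Ne.symm hxx), add_zero]

/-- The inner product on rank `n`. -/
noncomputable def form (h : IsDifferential r P) (n : ℕ) : (P → ℚ) →ₗ[ℚ] (P → ℚ) →ₗ[ℚ] ℚ :=
  LinearMap.mk₂ ℚ (fun f g => ∑ x ∈ rk h n, f x * g x)
    (fun f f' g => by simp [add_mul, Finset.sum_add_distrib])
    (fun c f g => by simp [mul_assoc, Finset.mul_sum])
    (fun f g g' => by simp [mul_add, Finset.sum_add_distrib])
    (fun c f g => by simp [mul_left_comm, Finset.mul_sum])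

lemma form_apply (h : IsDifferential r P) (n : ℕ) (f g : P → ℚ) :
    form h n f g = ∑ x ∈ rk h n, f x * g x := rfl

lemma adj (h : IsDifferential r P) (n : ℕ) (f g : P → ℚ) :
    form h (n + 1) (opU h f) g = form h n f (opD h g) := by
  rw [form_apply, form_apply]
  simp only [opU_apply, opD_apply, Finset.sum_mul, Finset.mul_sum]
  apply Finset.sum_comm'
  intro y x
  rw [mem_rk, mem_dn, mem_rk, mem_up]
  constructor
  · rintro ⟨h1, h2⟩
    refine ⟨h2, ?_⟩
    have := grade_cov h2
    omega
  · rintro ⟨h1, h2⟩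
    refine ⟨?_, h1⟩
    rw [grade_cov h1, h2]

/-- The indicator function of rank `n`. -/
noncomputable def ind (P : Type u) [PartialOrder P] [OrderBot P] [GradeMinOrder ℕ P]
    (n : ℕ) : P → ℚ := fun x => if grade ℕ x = n then 1 else 0

lemma grade_bot' : grade ℕ (⊥ : P) = 0 := by
  have h := GradeMinOrder.isMin_grade (𝕆 := ℕ) (isMin_bot : IsMin (⊥ : P))
  have h2 : IsMin (grade ℕ (⊥ : P)) := h
  exact Nat.eq_zero_of_le_zero (h2 (Nat.zero_le _))

lemma opD_ind_zero (h : IsDifferential r P) : opD h (ind P 0) = 0 := by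
  ext x
  rw [opD_apply, Pi.zero_apply]
  apply Finset.sum_eq_zero
  intro y hy
  rw [mem_up] at hy
  rw [ind, if_neg]
  rw [grade_cov hy]
  omega

lemma opD_ind_succ (h : IsDifferential r P) (n : ℕ) (x : P) :
    opD h (ind P (n + 1)) x = if grade ℕ x = n then ((up h x).card : ℚ) else 0 := by
  rw [opD_apply]
  have h1 : ∀ y ∈ up h x, ind P (n + 1) y = if grade ℕ x = n then 1 else 0 := by
    intro y hy
    rw [mem_up] at hy
    unfold ind
    rw [grade_cov hy]
    simp
  rw [Finset.sum_congr rfl h1, Finset.sum_const, nsmul_eq_mul]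
  split_ifs <;> simp

lemma opU_ind (h : IsDifferential r P) (n : ℕ) (x : P) :
    opU h (ind P n) x = if grade ℕ x = n + 1 then ((dn h x).card : ℚ) else 0 := by
  rw [opU_apply]
  have h1 : ∀ y ∈ dn h x, ind P n y = if grade ℕ x = n + 1 then 1 else 0 := by
    intro y hy
    rw [mem_dn] at hy
    unfold ind
    rw [grade_cov hy]
    simp
  rw [Finset.sum_congr rfl h1, Finset.sum_const, nsmul_eq_mul]
  split_ifs <;> simp

lemma opD_ind_one (h : IsDifferential r P) : opD h (ind P 1) = (r : ℚ) • ind P 0 := by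
  ext x
  rw [opD_ind_succ, Pi.smul_apply, smul_eq_mul]
  unfold ind
  by_cases hx : grade ℕ x = 0
  · rw [if_pos hx, if_pos hx, card_up]
    have : dn h x = ∅ := by
      apply Finset.eq_empty_of_forall_notMem
      intro y hy
      rw [mem_dn] at hy
      have := grade_cov hy
      omega
    rw [this]
    simp
  · rw [if_neg hx, if_neg hx, mul_zero]

lemma opD_ind_add_two (h : IsDifferential r P) (n : ℕ) :
    opD h (ind P (n + 2)) = opU h (ind P n) + (r : ℚ) • ind P (n + 1) := by
  ext x
  rw [opD_ind_succ, Pi.add_apply, Pi.smul_apply, smul_eq_mul, opU_ind]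
  unfold ind
  by_cases hx : grade ℕ x = n + 1
  · rw [if_pos hx, if_pos hx, if_pos hx, card_up]
    push_cast
    ring
  · rw [if_neg hx, if_neg hx, if_neg hx, mul_zero, add_zero]

lemma form_ind (h : IsDifferential r P) (n : ℕ) :
    form h n (ind P n) (ind P n) = ((rk h n).card : ℚ) := by
  rw [form_apply, Finset.card_eq_sum_ones]
  push_cast
  apply Finset.sum_congr rfl
  intro x hx
  rw [mem_rk] at hx
  simp [ind, hx]

lemma rankFn_eq (h : IsDifferential r P) (n : ℕ) : rankFn P n = ((rk h n).card : ℤ) := by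
  unfold rankFn rk
  rw [Set.ncard_eq_toFinset_card _ (h.finite_rank n)]

lemma rk_zero (h : IsDifferential r P) : rk h 0 = {⊥} := by
  ext x
  rw [mem_rk, mem_singleton]
  constructor
  · intro hx
    by_contra hne
    have h1 : (⊥ : P) < x := bot_lt_iff_ne_bot.2 hne
    have h2 := grade_strictMono (𝕆 := ℕ) h1
    omega
  · rintro rfl
    exact grade_bot'

open PowerSeries in
lemma mk_diff (q : ℕ → ℤ) :
    PowerSeries.mk (fun n => ((diff q n : ℤ) : ℚ)) =
      (1 - X) * PowerSeries.mk (fun n => ((q n : ℤ) : ℚ)) := by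
  ext n
  rw [sub_mul, one_mul, map_sub, coeff_mk, coeff_mk]
  match n with
  | 0 => rw [coeff_zero_X_mul]; simp [diff]
  | (n + 1) => rw [coeff_succ_X_mul, coeff_mk]; simp [diff]

open PowerSeries in
lemma mk_diff_iter (m : ℕ) (q : ℕ → ℤ) :
    PowerSeries.mk (fun n => (((diff^[m] q) n : ℤ) : ℚ)) =
      (1 - X) ^ m * PowerSeries.mk (fun n => ((q n : ℤ) : ℚ)) := by
  induction m with
  | zero => simp
  | succ m ih =>
    simp only [Function.iterate_succ_apply']
    rw [mk_diff, ih, pow_succ']
    ring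

end Proof

open PowerSeries in
/-- For every `r ≥ 1` and every `r`-differential poset with rank function `p`, the `r`-th
difference of `p` is positive at every `n ≥ 2`. -/
theorem result (r : ℕ) (hr : 1 ≤ r) (P : Type u) [PartialOrder P] [OrderBot P]
    [GradeMinOrder ℕ P] (h : IsDifferential r P) (n : ℕ) (hn : 2 ≤ n) :
    0 < (diff^[r] (rankFn P)) n := by
  classical
  have hrq : (r : ℚ) ≠ 0 := by
    have : r ≠ 0 := by omega
    exact_mod_cast this
  set V : ℕ → ℚ := fun k => form h k (Helper15.Heis.vv (opU h) (r : ℚ) (ind P) k)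
    (Helper15.Heis.vv (opU h) (r : ℚ) (ind P) k) with hV
  have hVnn : ∀ k, 0 ≤ V k := by
    intro k
    rw [hV]
    simp only [form_apply]
    exact Finset.sum_nonneg (fun x _ => mul_self_nonneg _)
  have hV0 : V 0 = 1 := by
    have h0 : Helper15.Heis.vv (opU h) (r : ℚ) (ind P) 0 = ind P 0 := by
      rw [Helper15.Heis.vv]; simp
    rw [hV]
    simp only [h0]
    rw [form_ind, rk_zero]
    simp
  have hp : ∀ k, ((rankFn P k : ℤ) : ℚ) =
      ∑ i ∈ range (k + 1), V i * Helper15.Heis.ff (r : ℚ) (k - i) := by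
    intro k
    have h1 := Helper15.Heis.norm_eq (B := form h) hrq (comm h) (ind P) (opD_ind_zero h)
      (opD_ind_one h) (opD_ind_add_two h) (adj h)
      (fun N f g => by rw [form_apply, form_apply]; simp only [mul_comm]) k
    rw [form_ind] at h1
    rw [rankFn_eq h]
    push_cast
    rw [h1]
    apply Finset.sum_congr rfl
    intro i _
    rw [mul_comm]
  have hser : PowerSeries.mk (fun k => ((rankFn P k : ℤ) : ℚ)) =
      PowerSeries.mk V * PowerSeries.mk (Helper15.Heis.ff (r : ℚ)) := by
    ext k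
    rw [coeff_mk, coeff_mul, hp k]
    simp only [coeff_mk]
    rw [Finset.Nat.sum_antidiagonal_eq_sum_range_succ
      (fun i j => V i * Helper15.Heis.ff (r : ℚ) j) k]
  have hfin := mk_diff_iter r (rankFn P)
  rw [hser] at hfin
  have h2 := congrArg (coeff n) hfin
  rw [coeff_mk] at h2
  have h3 : (1 - X : ℚ⟦X⟧) ^ r * (PowerSeries.mk V * PowerSeries.mk (Helper15.Heis.ff (r : ℚ))) =
      PowerSeries.mk V * ((1 - X) ^ r * PowerSeries.mk (Helper15.Heis.ff (r : ℚ))) := by ring
  rw [h3] at h2
  set G := (1 - X : ℚ⟦X⟧) ^ r * PowerSeries.mk (Helper15.Heis.ff (r : ℚ)) with hG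
  have hGc : ∀ k, 0 ≤ coeff k G ∧ (k ≠ 1 → 0 < coeff k G) := fun k =>
    Helper15.Heis.coeff_G r (by omega) k
  clear_value G
  rw [coeff_mul n (PowerSeries.mk V) G] at h2
  have hnn : ∀ p ∈ Finset.HasAntidiagonal.antidiagonal n,
      0 ≤ coeff p.1 (PowerSeries.mk V) * coeff p.2 G := by
    intro p _
    rw [coeff_mk]
    exact mul_nonneg (hVnn _) (hGc _).1
  have hmem : ((0, n) : ℕ × ℕ) ∈ Finset.HasAntidiagonal.antidiagonal n :=
    Finset.HasAntidiagonal.mem_antidiagonal.2 (Nat.zero_add n)
  have h4 := Finset.single_le_sum hnn hmem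
  rw [coeff_mk, hV0, one_mul, ← h2] at h4
  have h5 := lt_of_lt_of_le ((hGc n).2 (by omega)) h4
  exact_mod_cast h5

end Pool.Agent.Results.MP_87b2fe_co.DifferencePositivity
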